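import Mathlib
import Pool.Agent.Helper395.PO.Poisson

/-!
# MP_77e77d_ag, Q1: degeneracy loci of compact holomorphic Poisson manifolds — a counterexample

The Hopf manifold `X = (ℂ⁵ ∖ 0) / (v ∼ 2v)` carries the holomorphic Poisson structure induced by a
quadratic Poisson structure on `ℂ⁵` (the Feigin–Odesskii structure of the elliptic normal quintic
of `y² = x³ + 1`).  Its stratum `X₂` is non-empty and has dimension at most `2` at each point.

The definitions (holomorphic functions, Poisson structures, rank, strata, dimension) are in
`Pool/Agent/Helper395/PO/Defs.lean`.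
-/

set_option autoImplicit false

namespace Pool.Agent.Results.MP_77e77d_ag.HopfCounterexample

open Pool.Agent.Helper395.PO

/-- The statement of Q1: for every compact connected holomorphic Poisson manifold `M` of dimension
`n` and every even `s < n`, if the stratum `X_s` of points of rank `s` is non-empty, then `X_s` has
a component of dimension `> s`, i.e. the dimension of `X_s` at some `x ∈ X_s` is not `≤ s`. -/
def Q1 : Prop :=
  ∀ (n : ℕ) (M : CompactPoissonManifold n) (s : ℕ), Even s → s < n →
    (M.P.stratum s).Nonempty → ∃ x ∈ M.P.stratum s, ¬ DimAtLE n (M.P.stratum s) x s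

/-- There is a compact connected holomorphic Poisson manifold of dimension `5` whose stratum `X₂`
is non-empty and of dimension at most `2` at each of its points; in particular `Q1` is false. -/
theorem result :
    (∃ M : CompactPoissonManifold 5, (M.P.stratum 2).Nonempty ∧
      ∀ x ∈ M.P.stratum 2, DimAtLE 5 (M.P.stratum 2) x 2) ∧ ¬ Q1 := by
  have : SecondCountableTopology Hopf :=
    ChartedSpace.secondCountable_of_sigmaCompact (Fin 5 → ℂ) Hopf
  have h1 : ∃ M : CompactPoissonManifold 5, (M.P.stratum 2).Nonempty ∧
      ∀ x ∈ M.P.stratum 2, DimAtLE 5 (M.P.stratum 2) x 2 :=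
    ⟨{ X := Hopf, P := PH }, stratum_nonempty, stratum_dim⟩
  refine ⟨h1, fun h => ?_⟩
  obtain ⟨M, hne, hd⟩ := h1
  obtain ⟨x, hx, hx2⟩ := h 5 M 2 even_two (by norm_num) hne
  exact hx2 (hd x hx)

end Pool.Agent.Results.MP_77e77d_ag.HopfCounterexample
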